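import Mathlib
import Pool.Agent.V1110.BtG

/-!
# Characteristic series of explicit length with factors of prime power exponent

Let `n = p₁ ^ a₁ ⋯ p_k ^ a_k`, and let `G` be a group of exponent `n` whose three-generator subgroups
are finite, and soluble if `k > 2`.  Suppose that for no `i < j` a power `> 1` of `p_j` equals
`p_i ^ μ - 1` with `1 ≤ μ ≤ a_i`; for odd `n` this is always true.  We show that `G` (which may be
infinite) has a characteristic series of length `2 (a₁ + 1) ⋯ (a_{k-1} + 1) - 1` whose factors have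
exponents dividing prime powers that divide `n`.  If moreover `p_i` divides `p_j - 1` for all
`i < j` with `a_j ≥ 2` (and, if `p_i ^ a_i ⋯ p_k ^ a_k` is even, also for the Fermat primes `p_j`),
then two generators are enough in place of three; in this case, and if `B_{2,n}` is soluble or
`k ≤ 2`, the number `n` is in `𝓛` if and only if all `p_i ^ a_i` are in `𝓛` and `B_{2,n}` is finite.
If `B_{3,n}`, or `B_{2,n}` in the second case, is finite (and soluble, if `k > 2`), then every group
of exponent `n` has such a series.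

The theorem `BoundedSeries` (under this problem) gives normal series of a length which is bounded by
an unspecified function of `n` and of the orders of the two-generator subgroups, for other
exponents, by a compactness argument.  Here the bound is explicit and depends on `n` only.

Outline.  For `n = p ^ a * m` the largest normal subgroup of exponent dividing `m` and, in the
quotient, the largest normal subgroup of exponent dividing `p ^ a` are characteristic; the second
quotient has exponent dividing `p ^ (a - 1) * m` by the arguments of the theorems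
`PSolubleThreeGenerators` and `TwoGeneratorsOnePrime`.  So `L(n) = (a + 1) L(m) + a`.
-/

set_option autoImplicit false

namespace Pool.Agent.Results.MP_544bd1_al.ExplicitSeries

open Pool.Agent.H32BU Pool.Agent.W629 Pool.Agent.TH69 Pool.Agent.V1110.Bt

universe u

/-- `n ∈ 𝓛`: every group satisfying `x ^ n = 1` is locally finite. -/
def InL (n : ℕ) : Prop := ∀ (G : Type u) [Group G], (∀ x : G, x ^ n = 1) →
  ∀ S : Set G, S.Finite → Finite (Subgroup.closure S)

/-- The free Burnside group `B_{m,n}`: the free group of rank `m` modulo the normal closure of all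
`n`-th powers. -/
abbrev B (m n : ℕ) : Type :=
  FreeGroup (Fin m) ⧸ Subgroup.normalClosure (Set.range fun w : FreeGroup (Fin m) => w ^ n)

/-- `G` satisfies `x ^ n = 1`, and its subgroups generated by `d` elements are finite; moreover they
are soluble, if `k > 2` (`k` will be the number of prime divisors of `n`). -/
def Gen (d k n : ℕ) (G : Type u) [Group G] : Prop :=
  (∀ x : G, x ^ n = 1) ∧ ∀ v : Fin d → G, Finite (Subgroup.closure (Set.range v)) ∧
    (k ≤ 2 ∨ Group.IsSolvable (Subgroup.closure (Set.range v)))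

/-- `B_{d,n}` is finite; moreover it is soluble, if `k > 2`. -/
def Free (d k n : ℕ) : Prop := Finite (B d n) ∧ (k ≤ 2 ∨ Group.IsSolvable (B d n))

/-- `G` has a series `1 = N 0 ≤ N 1 ≤ ... ≤ N L = G` of characteristic subgroups such that each
factor has an exponent dividing a prime power which divides `n`. -/
def HasCharSeries (n L : ℕ) (G : Type u) [Group G] : Prop :=
  ∃ N : ℕ → Subgroup G, N 0 = ⊥ ∧ N L = ⊤ ∧ (∀ i, (N i).Characteristic ∧ N i ≤ N (i + 1)) ∧
    ∀ i < L, ∃ p k : ℕ, p.Prime ∧ p ^ k ∣ n ∧ ∀ x ∈ N (i + 1), x ^ p ^ k ∈ N i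

/-- The number `p₁ ^ a₁ * p₂ ^ a₂ * ... * p_k ^ a_k` for the list `(p₁, a₁), ..., (p_k, a_k)`. -/
def num : List (ℕ × ℕ) → ℕ
  | [] => 1
  | (p, a) :: t => p ^ a * num t

/-- The number `2 (a₁ + 1) ⋯ (a_{k-1} + 1) - 1` for the list `(p₁, a₁), ..., (p_k, a_k)`. -/
def bound (l : List (ℕ × ℕ)) : ℕ := 2 * (l.dropLast.map fun x => x.2 + 1).prod - 1

/-- The condition for three generators: for each prime `q` dividing `m`, no power `q ^ r`, `r ≥ 1`,
equals `p ^ μ - 1` with `1 ≤ μ ≤ a`. -/
def Three (p a m : ℕ) : Prop :=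
  ∀ q : ℕ, q.Prime → q ∣ m → ∀ r μ : ℕ, 1 ≤ r → 1 ≤ μ → μ ≤ a → q ^ r ≠ p ^ μ - 1

/-- The condition for two generators: that for three generators holds, and each prime `q` dividing
`m` is `≡ 1` modulo `p`, or else `q ^ 2` does not divide `m`, and `p ^ a * m` is odd or `q` is not of
the form `2 ^ r + 1` with `r ≥ 1`. -/
def Two (p a m : ℕ) : Prop :=
  Three p a m ∧ ∀ q : ℕ, q.Prime → q ∣ m →
    (p ∣ q - 1 ∨ ¬ q ^ 2 ∣ m ∧ (Odd (p ^ a * m) ∨ ∀ r : ℕ, 1 ≤ r → q ≠ 2 ^ r + 1))

/-- The list `(p₁, a₁), ..., (p_k, a_k)` consists of different primes `p_i` (more precisely, `p_i`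
does not divide `p_{i+1} ^ a_{i+1} ⋯ p_k ^ a_k`) with exponents `a_i` such that the condition `C`
holds for `p_i`, `a_i` and `p_{i+1} ^ a_{i+1} ⋯ p_k ^ a_k`, for all `i`. -/
def Adm (C : ℕ → ℕ → ℕ → Prop) : List (ℕ × ℕ) → Prop
  | [] => True
  | (p, a) :: t => p.Prime ∧ ¬ p ∣ num t ∧ C p a (num t) ∧ Adm C t

theorem num_eq (l : List (ℕ × ℕ)) : prodL l = num l := by
  induction l with
  | nil => rfl
  | cons y t ih =>
    obtain ⟨p, a⟩ := y
    change p ^ a * prodL t = p ^ a * num t
    rw [ih]

theorem adm_cond {C : ℕ → ℕ → ℕ → Prop} (l : List (ℕ × ℕ)) (h : Adm C l) : Cond C l := by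
  induction l with
  | nil => trivial
  | cons y t ih =>
    obtain ⟨p, a⟩ := y
    obtain ⟨h1, h2, h3, h4⟩ := h
    exact ⟨h1, by rwa [num_eq], by rwa [num_eq], ih h4⟩

theorem key3 (p a m : ℕ) (hp : p.Prime) (hpm : ¬ p ∣ m) (h : Three p a m) (α : ℕ) (hα : 1 ≤ α)
    (hαa : α ≤ a) : Key 3 True p α m :=
  key_three hp hpm hα fun q hq hqm μ h2 h3 r hr => h q hq hqm r μ hr h2 (h3.trans hαa)

theorem key2 (p a m : ℕ) (hp : p.Prime) (hpm : ¬ p ∣ m) (h : Two p a m) (α : ℕ) (hα : 1 ≤ α)
    (hαa : α ≤ a) : Key 2 True p α m := by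
  refine key_sol hp hpm hα
    (fun q hq hqm μ h2 h3 r hr => h.1 q hq hqm r μ hr h2 (h3.trans hαa)) fun q hq hqm => ?_
  rcases h.2 q hq hqm with h | ⟨h1, h | h⟩
  · exact Or.inl h
  · refine Or.inr ⟨h1, Or.inl fun h2 => ?_⟩
    have h2 : 2 ∣ p ^ a * m := h2.trans (Nat.mul_dvd_mul (pow_dvd_pow p hαa) dvd_rfl)
    obtain ⟨c, hc⟩ := h
    omega
  · exact Or.inr ⟨h1, Or.inr h⟩

theorem conv {n L : ℕ} {G : Type u} [Group G] (h : CS (PP n) L G) : HasCharSeries n L G := by
  obtain ⟨N, h1, h2, h3, h4⟩ := h
  refine ⟨N, h1, h2, h3, fun i hi => ?_⟩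
  obtain ⟨e, ⟨p, k, hp, hk, rfl⟩, h5⟩ := h4 i hi
  exact ⟨p, k, hp, hk, h5⟩

theorem all {d : ℕ} {C : ℕ → ℕ → ℕ → Prop}
    (hC : ∀ p a m, p.Prime → ¬ p ∣ m → C p a m → ∀ α, 1 ≤ α → α ≤ a → Key d True p α m)
    (l : List (ℕ × ℕ)) (hl : Adm C l) :
    (∀ (G : Type u) [Group G], Gen d l.length (num l) G → HasCharSeries (num l) (bound l) G) ∧
    (Free d l.length (num l) → ∀ (G : Type u) [Group G], (∀ x : G, x ^ num l = 1) →
      HasCharSeries (num l) (bound l) G) := by
  have hc := adm_cond l hl
  have h1 : ∀ (G : Type u) [Group G], SolU d (num l) G → HasCharSeries (num l) (bound l) G := by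
    intro G _ h
    rw [← num_eq] at h ⊢
    exact conv (cs_list hC l hc G h)
  refine ⟨fun G _ h => h1 G ⟨h.1, fun v => ⟨(h.2 v).1, ?_⟩⟩, fun h G _ hG => h1 G ?_⟩
  · rcases (h.2 v).2 with h2 | h2
    · have := (h.2 v).1
      refine solv_list hc h2 (exp_sub ?_ _)
      rw [num_eq]
      exact h.1
    · exact h2
  · have := h.1
    refine solU_of_bu h.1 ?_ hG
    rcases h.2 with h2 | h2
    · refine solv_list hc h2 ?_
      rw [num_eq]
      exact bu_exp
    · exact h2

theorem odd_case {n q : ℕ} (hn : Odd n) (hq : q.Prime) :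
    (∀ (G : Type u) [Group G], SolU 3 n G →
      HasCharSeries n (2 * (∏ p ∈ n.primeFactors.erase q, (n.factorization p + 1)) - 1) G) := by
  intro G _ h
  have hn0 : n ≠ 0 := by
    rintro rfl
    simp at hn
  have hprod : (∏ p ∈ n.primeFactors.erase q, p ^ n.factorization p) * q ^ n.factorization q =
      n := by
    have h1 := Nat.prod_factorization_pow_eq_self hn0
    rw [Finsupp.prod, Nat.support_factorization] at h1
    by_cases hqn : q ∈ n.primeFactors
    · rw [Finset.prod_erase_mul _ _ hqn]
      exact h1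
    · rw [Finset.erase_eq_of_notMem hqn, h1]
      have : n.factorization q = 0 := by
        rw [← Nat.support_factorization] at hqn
        exact Finsupp.notMem_support_iff.1 hqn
      rw [this, pow_zero, mul_one]
  have h2 := cs_odd.{u} (b := n.factorization q) hq (fun p => n.factorization p)
    (n.primeFactors.erase q)
    (fun p hp => ⟨Nat.prime_of_mem_primeFactors (Finset.mem_of_mem_erase hp),
      Finset.ne_of_mem_erase hp⟩)
  rw [hprod] at h2
  refine conv (h2 ?_ G h)
  intro h3
  obtain ⟨c, hc⟩ := hn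
  omega

/-- (1) Let the list `l = [(p₁, a₁), ..., (p_k, a_k)]` be admissible for three generators, and
`n = p₁ ^ a₁ ⋯ p_k ^ a_k`. A group satisfying `x ^ n = 1` whose three-generator subgroups are finite
(and soluble, if `k > 2`) has a characteristic series of length `2 (a₁ + 1) ⋯ (a_{k-1} + 1) - 1`
such that the exponent of each factor divides a prime power dividing `n`. If `B_{3,n}` is finite (and
soluble, if `k > 2`), this holds for all groups satisfying `x ^ n = 1`. (2) Let `l` be admissible for
two generators. Then the same is true with `2` in place of `3`; and if `B_{2,n}` is soluble or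
`k ≤ 2`, then `n ∈ 𝓛` if and only if all `p_i ^ a_i` are in `𝓛` and `B_{2,n}` is finite. (3) Let
`n` be odd and `q` a prime. A group satisfying `x ^ n = 1` whose three-generator subgroups are finite
(and soluble, if `n` has more than two prime divisors) has a characteristic series as in (1) of
length `2 ∏ (v_p(n) + 1) - 1`, where `p` runs over the prime divisors of `n` different from `q`. If
`B_{3,n}` is finite (and soluble, if `n` has more than two prime divisors), this holds for all groups
satisfying `x ^ n = 1`. -/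
theorem result :
    (∀ l : List (ℕ × ℕ), Adm Three l →
      (∀ (G : Type u) [Group G], Gen 3 l.length (num l) G → HasCharSeries (num l) (bound l) G) ∧
      (Free 3 l.length (num l) → ∀ (G : Type u) [Group G], (∀ x : G, x ^ num l = 1) →
        HasCharSeries (num l) (bound l) G)) ∧
    (∀ l : List (ℕ × ℕ), Adm Two l →
      (∀ (G : Type u) [Group G], Gen 2 l.length (num l) G → HasCharSeries (num l) (bound l) G) ∧
      (Free 2 l.length (num l) → ∀ (G : Type u) [Group G], (∀ x : G, x ^ num l = 1) →
        HasCharSeries (num l) (bound l) G) ∧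
      ((l.length ≤ 2 ∨ Group.IsSolvable (B 2 (num l))) →
        (InL.{u} (num l) ↔ (∀ x ∈ l, InL.{u} (x.1 ^ x.2)) ∧ Finite (B 2 (num l))))) ∧
    (∀ n q : ℕ, Odd n → q.Prime →
      (∀ (G : Type u) [Group G], Gen 3 n.primeFactors.card n G → HasCharSeries n
        (2 * (∏ p ∈ n.primeFactors.erase q, (n.factorization p + 1)) - 1) G) ∧
      (Free 3 n.primeFactors.card n → ∀ (G : Type u) [Group G], (∀ x : G, x ^ n = 1) →
        HasCharSeries n
          (2 * (∏ p ∈ n.primeFactors.erase q, (n.factorization p + 1)) - 1) G)) := by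
  refine ⟨fun l hl => all key3 l hl, fun l hl => ⟨(all key2 l hl).1, (all key2 l hl).2,
    fun hs => ⟨fun h => ⟨?_, ?_⟩, ?_⟩⟩, fun n q hn hq => ⟨fun G _ h => ?_, fun h G _ hG => ?_⟩⟩
  · rintro ⟨p, a⟩ hx G _ hG
    refine h G fun x => ?_
    have h1 : p ^ a ∣ num l := by
      clear hl h hs
      induction l with
      | nil => exact absurd hx (by simp)
      | cons y t ih =>
        obtain ⟨r, b⟩ := y
        rcases List.mem_cons.1 hx with h2 | h2
        · have h3 : p = r := congrArg Prod.fst h2
          have h4 : a = b := congrArg Prod.snd h2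
          rw [h3, h4]
          exact dvd_mul_right _ _
        · exact (ih h2).trans (dvd_mul_left _ _)
    obtain ⟨c, hc⟩ := h1
    rw [hc, pow_mul, hG, one_pow]
  · exact x_LFD.2.1 _ 2 ((inL_iff x_LFD _).1 h)
  · rintro ⟨h1, h2⟩
    have hc := adm_cond l hl
    have hs' : Group.IsSolvable (B 2 (num l)) := by
      rcases hs with h3 | h3
      · refine solv_list hc h3 ?_
        rw [num_eq]
        exact bu_exp
      · exact h3
    have h4 := inL_list.{u} key2 l hc (by rw [num_eq]; exact h2) (by rw [num_eq]; exact hs') h1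
    rw [num_eq] at h4
    exact h4
  · refine odd_case hn hq G ⟨h.1, fun v => ⟨(h.2 v).1, ?_⟩⟩
    rcases (h.2 v).2 with h2 | h2
    · have := (h.2 v).1
      refine solv_card ?_ h2 (exp_sub h.1 _)
      rintro rfl
      simp at hn
    · exact h2
  · have := h.1
    refine odd_case hn hq G (solU_of_bu h.1 ?_ hG)
    rcases h.2 with h2 | h2
    · refine solv_card ?_ h2 bu_exp
      rintro rfl
      simp at hn
    · exact h2

end Pool.Agent.Results.MP_544bd1_al.ExplicitSeries
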