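import Mathlib
import Pool.Agent.V1110.BtE
import Pool.Agent.TH69.OdW

/-!
# Three generators and one prime: splitting a prime power off the exponent

Let `n = p ^ a * m` with a prime `p` not dividing `m`.  Suppose that no power `q ^ r > 1` of a prime
divisor `q` of `m` equals `p ^ μ - 1` with `1 ≤ μ ≤ a` (this holds if `n` is odd, if `p` is odd and
`p - 1` is not a power of `2`, and if `p = 2` and no Mersenne prime less than `2 ^ a` divides `m`).
Let `G` be a group of exponent `n` whose three-generator subgroups are finite and `p`-soluble.  Then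
`G` has a normal series `1 = N 0 ≤ N 1 ≤ ... ≤ N (2 a + 1) = G` whose factors have exponents
dividing `m, p ^ a, m, p ^ (a - 1), m, ..., p, m`; if `p ^ a` and `m` are in `𝓛`, then `G` is locally
finite.  So if `B_{3,n}` is finite and `p`-soluble, then `n ∈ 𝓛` if and only if `p ^ a ∈ 𝓛` and
`m ∈ 𝓛`.

Outline.  Let `R` be the largest normal subgroup of `G` of exponent dividing `m`; pass to `G / R`.
By the theorem of Hall and Higman (for `p`-soluble groups) the element `w = x ^ (p ^ (a - 1))` lies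
in `O_{p',p}(E)` for each element `x` of order `p ^ a` and each finite `p`-soluble subgroup `E`
containing `w`.  If `w` is not in the largest normal subgroup of `G` of exponent dividing `p ^ a`,
there is a nontrivial `q`-subgroup `U`, `q ≠ p`, on which `w` acts irreducibly; a third generator
shows that `U` lies in the largest normal subgroup of exponent dividing `m`, which is trivial.  So
modulo this normal subgroup the `p`-part of the exponent is at most `p ^ (a - 1)`.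
-/

set_option autoImplicit false

namespace Pool.Agent.Results.MP_544bd1_al.PSolubleThreeGenerators

open Pool.Agent.H32BU Pool.Agent.W629 Pool.Agent.TH69 Pool.Agent.V1110.Bt

universe u

/-- `n ∈ 𝓛`: every group satisfying `x ^ n = 1` is locally finite. -/
def InL (n : ℕ) : Prop := ∀ (G : Type u) [Group G], (∀ x : G, x ^ n = 1) →
  ∀ S : Set G, S.Finite → Finite (Subgroup.closure S)

/-- The free Burnside group `B_{m,n}`: the free group of rank `m` modulo the normal closure of all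
`n`-th powers. -/
abbrev B (m n : ℕ) : Type :=
  FreeGroup (Fin m) ⧸ Subgroup.normalClosure (Set.range fun w : FreeGroup (Fin m) => w ^ n)

/-- The group `G` is `p`-soluble: it has a subnormal series `1 = H 0 ≤ H 1 ≤ ... ≤ H k = G` whose
factors have order `p` or order prime to `p`. -/
def PSoluble (p : ℕ) (G : Type u) [Group G] : Prop :=
  ∃ (k : ℕ) (H : ℕ → Subgroup G), H 0 = ⊥ ∧ H k = ⊤ ∧ ∀ i < k, H i ≤ H (i + 1) ∧
    ((H i).subgroupOf (H (i + 1))).Normal ∧
    ((H i).relIndex (H (i + 1)) = p ∨ Nat.Coprime ((H i).relIndex (H (i + 1))) p)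

/-- A power `q ^ r`, `r ≥ 1`, of a prime divisor `q` of `m` equals `p ^ μ - 1` with
`1 ≤ μ ≤ a`. -/
def Exceptional (p a m : ℕ) : Prop :=
  ∃ q r μ : ℕ, q.Prime ∧ q ∣ m ∧ 1 ≤ r ∧ 1 ≤ μ ∧ μ ≤ a ∧ q ^ r = p ^ μ - 1

/-- `G` satisfies `x ^ n = 1` and its three-generator subgroups are finite and `p`-soluble. -/
def ThreeGen (n p : ℕ) (G : Type u) [Group G] : Prop :=
  (∀ x : G, x ^ n = 1) ∧
  ∀ x y z : G, Finite (Subgroup.closure {x, y, z}) ∧ PSoluble p (Subgroup.closure {x, y, z})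

/-- `G` has a normal series `1 = N 0 ≤ N 1 ≤ ... ≤ N (2 a + 1) = G` such that the exponents of the
factors divide `m, p ^ a, m, p ^ (a - 1), m, ..., p, m` (in this order). -/
def HasSeries (p a m : ℕ) (G : Type u) [Group G] : Prop :=
  ∃ N : ℕ → Subgroup G, N 0 = ⊥ ∧ N (2 * a + 1) = ⊤ ∧ (∀ i, (N i).Normal ∧ N i ≤ N (i + 1)) ∧
    (∀ i ≤ a, ∀ x ∈ N (2 * i + 1), x ^ m ∈ N (2 * i)) ∧
    ∀ i < a, ∀ x ∈ N (2 * i + 2), x ^ p ^ (a - i) ∈ N (2 * i + 1)

theorem not_exceptional {p a m : ℕ} (hp : p.Prime)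
    (h : (p ≠ 2 ∧ Odd m) ∨ (p ≠ 2 ∧ ∀ k, p ≠ 2 ^ k + 1) ∨
      (p = 2 ∧ ∀ μ, 2 ≤ μ → μ ≤ a → (2 ^ μ - 1).Prime → ¬ 2 ^ μ - 1 ∣ m)) :
    ¬ Exceptional p a m := by
  rintro ⟨q, r, μ, hq, hqm, hr, hμ1, hμ2, h1⟩
  have hodd : p ≠ 2 → q = 2 := by
    intro hp2
    have h2 : Odd (p ^ μ) := (hp.odd_of_ne_two hp2).pow
    by_contra hq2
    have h3 : Odd (q ^ r) := (hq.odd_of_ne_two hq2).pow
    obtain ⟨c, hc⟩ := h2
    obtain ⟨d, hd⟩ := h3
    omega
  rcases h with ⟨hp2, hm⟩ | ⟨hp2, hk⟩ | ⟨rfl, h2⟩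
  · rw [hodd hp2] at hqm
    obtain ⟨c, hc⟩ := hm
    omega
  · rw [hodd hp2] at h1
    have h3 : p - 1 ∣ 2 ^ r := by
      rw [h1]
      have := Nat.sub_dvd_pow_sub_pow p 1 μ
      rwa [one_pow] at this
    obtain ⟨k, -, hk'⟩ := (Nat.dvd_prime_pow Nat.prime_two).1 h3
    have := hp.two_le
    exact hk k (by omega)
  · obtain ⟨h3, h4⟩ := Od.mersenne hq hr h1
    rw [h3] at hqm hq
    exact h2 μ h4 hμ2 hq hqm

/-- Let `p` be a prime, `m ≥ 1` not divisible by `p`, and `n = p ^ a * m`. (0) `(p, a, m)` is not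
exceptional if `p` and `m` are odd, if `p` is odd and not of the form `2 ^ k + 1`, and if `p = 2`
and no Mersenne prime `2 ^ μ - 1` with `μ ≤ a` divides `m`; finite soluble groups are `p`-soluble.
Let `(p, a, m)` be not exceptional. (1)
Let `G` be a group satisfying `x ^ n = 1` whose three-generator subgroups are finite and
`p`-soluble. Then `G` has a normal series of length `2 a + 1` the exponents of whose factors divide
`m, p ^ a, m, p ^ (a - 1), m, ..., p, m`; and `G` is locally finite if `p ^ a` and `m` are in `𝓛`.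
(2) Suppose that `B_{3,n}` is finite and `p`-soluble. Then every group satisfying `x ^ n = 1` has
such a series, and `n ∈ 𝓛` if and only if `p ^ a ∈ 𝓛` and `m ∈ 𝓛`. -/
theorem result (p a m : ℕ) (hp : p.Prime) (hpm : ¬ p ∣ m) :
    ((p ≠ 2 ∧ Odd m) ∨ (p ≠ 2 ∧ ∀ k, p ≠ 2 ^ k + 1) ∨
      (p = 2 ∧ ∀ μ, 2 ≤ μ → μ ≤ a → (2 ^ μ - 1).Prime → ¬ 2 ^ μ - 1 ∣ m) →
      ¬ Exceptional p a m) ∧
    (∀ (H : Type u) [Group H] [Finite H], Group.IsSolvable H → PSoluble p H) ∧
    (¬ Exceptional p a m →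
      (∀ (G : Type u) [Group G], ThreeGen (p ^ a * m) p G → HasSeries p a m G ∧
        (InL.{u} (p ^ a) → InL.{u} m → ∀ S : Set G, S.Finite → Finite (Subgroup.closure S))) ∧
      (Finite (B 3 (p ^ a * m)) → PSoluble p (B 3 (p ^ a * m)) →
        (∀ (G : Type u) [Group G], (∀ x : G, x ^ (p ^ a * m) = 1) → HasSeries p a m G) ∧
        (InL.{u} (p ^ a * m) ↔ InL.{u} (p ^ a) ∧ InL.{u} m))) := by
  refine ⟨not_exceptional hp, fun H _ _ h => PSol.of_solvable hp _ H le_rfl h, fun hE => ?_⟩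
  have hex : ∀ α, α ≤ a → ∀ q : ℕ, q.Prime → q ∣ m → ∀ μ, 1 ≤ μ → μ ≤ α → ∀ r, 1 ≤ r →
      q ^ r ≠ p ^ μ - 1 := fun α hα q hq hqm μ h1 h2 r hr h =>
    hE ⟨q, r, μ, hq, hqm, hr, h1, h2.trans hα, h⟩
  obtain ⟨h1, h2⟩ := main.{u} (d := 3) (σ := False) hp hpm (a := a) fun α h1 h2 =>
    key_three hp hpm h1 (hex α h2)
  refine ⟨fun G _ hG => ?_, fun hf hs => ?_⟩
  · refine h1 G ⟨hG.1, fun v => ?_⟩
    rw [closure_three]
    obtain ⟨h3, h4⟩ := hG.2 (v 0) (v 1) (v 2)
    exact ⟨h3, PSol.psep hp hpm _ (exp_sub hG.1 _) h4, fun h => h.elim⟩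
  · exact h2 hf (PSol.psep hp hpm _ bu_exp hs) fun h => h.elim

end Pool.Agent.Results.MP_544bd1_al.PSolubleThreeGenerators
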