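import Mathlib
import Pool.Agent.V1110.BsA

/-!
# Two generators decide local finiteness for many exponents divisible by many squares of odd primes

The theorem `TwoGenerators` (under this problem) treats the exponents `n` which are divisible by the
squares of at most two odd primes (and satisfy a condition on Mersenne primes).  Here the number of
these primes is arbitrary; it is only required that each nonempty set `T` of such primes contains
`p` and `q` (possibly equal) such that all other elements of `T` are `≡ 1` modulo `p` and modulo `q`.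

Outline.  Let `G` be a minimal counterexample: a nontrivial group of exponent `n` with finite soluble
two-generator subgroups, without nontrivial normal subgroups of prime power exponent.  By the proof
of `TwoGenerators` (library `Pool.Agent.TH69`) the exponent `n` is odd, and for every prime `r`
dividing `n` there is an element `w` of order `r` in `S_r` (it lies in `O_{r',r}(E)` for all finite
soluble subgroups `E` containing it) which acts irreducibly on an elementary abelian `s`-subgroup `U`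
and not by scalars; hence `s ^ 2 ∣ n` and `r ∤ s - 1`.  Let `T` be the set of the primes whose
squares divide `n`, and `p, q ∈ T` as above.  If `p = q`, there is no `s` for `r = p`, a
contradiction.  Otherwise `s = q` for `r = p` and all `w`, and `s = p` for `r = q` and all `w`.  Now
the elements of order `p` in `S_p` lie in `O_{q,p}(E)` and those of order `q` in `S_q` lie in
`O_{p,q}(E)`, for all `E`; so they commute by the proof of `TwoGenerators`, and the group generated
by the former is a normal subgroup of smaller exponent, which is trivial by induction.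
-/

set_option autoImplicit false

namespace Pool.Agent.Results.MP_544bd1_al.TwoGeneratorsManySquares

open Pool.Agent.H32BU Pool.Agent.W629 Pool.Agent.TH69.Og Pool.Agent.TH69.Ok

universe u

/-- `n ∈ 𝓛`: every group satisfying `x ^ n = 1` is locally finite. -/
def InL (n : ℕ) : Prop := ∀ (G : Type u) [Group G], (∀ x : G, x ^ n = 1) →
  ∀ S : Set G, S.Finite → Finite (Subgroup.closure S)

/-- The free Burnside group `B_{m,n}`: the free group of rank `m` modulo the normal closure of all
`n`-th powers. -/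
abbrev B (m n : ℕ) : Type :=
  FreeGroup (Fin m) ⧸ Subgroup.normalClosure (Set.range fun w : FreeGroup (Fin m) => w ^ n)

/-- The exponents treated here: `n` is not divisible by `2 ^ m * (2 ^ m - 1) ^ 2` for any `m ≥ 2`,
and every nonempty finite set `T` of odd primes whose squares divide `n` has elements `p`, `q`
(possibly equal) such that `s ≡ 1` modulo `p` and modulo `q` for all other elements `s` of `T`. -/
def Admissible (n : ℕ) : Prop :=
  (∀ m : ℕ, 2 ≤ m → ¬ 2 ^ m * (2 ^ m - 1) ^ 2 ∣ n) ∧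
    ∀ T : Finset ℕ, T.Nonempty → (∀ s ∈ T, s.Prime ∧ s ≠ 2 ∧ s ^ 2 ∣ n) →
      ∃ p ∈ T, ∃ q ∈ T, ∀ s ∈ T, s ≠ p → s ≠ q → p ∣ s - 1 ∧ q ∣ s - 1

/-- Every prime power greater than `4` dividing `n` is in `𝓛`. -/
def PrimePowersInL (n : ℕ) : Prop :=
  ∀ p k : ℕ, p.Prime → p ^ k ∣ n → 4 < p ^ k → InL.{u} (p ^ k)

theorem b_finite_of_inL {n : ℕ} (h : InL.{u} n) (m : ℕ) : Finite (B m n) :=
  x_LFD.2.1 n m ((inL_iff x_LFD n).1 h)

/-- a criterion by triples of primes -/
theorem admissible_of_triples {n : ℕ} (h : ∀ m : ℕ, 2 ≤ m → ¬ 2 ^ m * (2 ^ m - 1) ^ 2 ∣ n)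
    (h3 : ∀ p q r : ℕ, p.Prime → q.Prime → r.Prime → p ≠ 2 → p < q → q < r →
      p ^ 2 ∣ n → q ^ 2 ∣ n → r ^ 2 ∣ n → p ∣ q - 1 ∧ p ∣ r - 1) : Admissible n := by
  refine ⟨h, fun T hT hs => ?_⟩
  have hp := T.min'_mem hT
  obtain ⟨p, hpe⟩ : ∃ p, p = T.min' hT := ⟨_, rfl⟩
  rw [← hpe] at hp
  have hmin : ∀ s ∈ T, p ≤ s := fun s hs => by rw [hpe]; exact T.min'_le s hs
  by_cases hall : ∀ s ∈ T, s ≠ p → p ∣ s - 1
  · exact ⟨p, hp, p, hp, fun s hs h1 _ => ⟨hall s hs h1, hall s hs h1⟩⟩
  push Not at hall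
  obtain ⟨q, hq, hqp, hpq⟩ := hall
  refine ⟨p, hp, q, hq, fun s hsT h1 h2 => ?_⟩
  exfalso
  have h4 := lt_of_le_of_ne (hmin q hq) hqp.symm
  have h5 := lt_of_le_of_ne (hmin s hsT) h1.symm
  obtain ⟨p1, p2, p3⟩ := hs p hp
  obtain ⟨q1, q2, q3⟩ := hs q hq
  obtain ⟨s1, s2, s3⟩ := hs s hsT
  rcases lt_or_gt_of_ne h2 with h6 | h6
  · exact hpq (h3 p s q p1 s1 q1 p2 h5 h6 p3 s3 q3).2
  · exact hpq (h3 p q s p1 q1 s1 p2 h4 h6 p3 q3 s3).1

/-- chains of primes, each dividing the predecessors of the later ones -/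
theorem chain (k : ℕ) : ∃ T : Finset ℕ, T.card = k ∧ (∀ p ∈ T, p.Prime ∧ p ≠ 2) ∧
    ∀ p ∈ T, ∀ q ∈ T, p < q → p ∣ q - 1 := by
  induction k with
  | zero => exact ⟨∅, rfl, by simp, by simp⟩
  | succ k ih =>
    obtain ⟨T, h1, h2, h3⟩ := ih
    have hP : (∏ p ∈ T, p) ≠ 0 := Finset.prod_ne_zero_iff.2 fun p hp => (h2 p hp).1.ne_zero
    obtain ⟨q, hq1, hq2, hq3⟩ := Nat.exists_prime_gt_modEq_one (2 + ∏ p ∈ T, p) hP
    have hdvd : ∀ p ∈ T, p ∣ q - 1 := fun p hp =>
      (Finset.dvd_prod_of_mem (fun p => p) hp).trans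
        ((Nat.modEq_iff_dvd' hq1.one_lt.le).1 hq3.symm)
    have hlt : ∀ p ∈ T, p < q := fun p hp => by
      have := Nat.le_of_dvd (Nat.pos_of_ne_zero hP) (Finset.dvd_prod_of_mem (fun p => p) hp)
      omega
    have hqT : q ∉ T := fun h => (hlt q h).ne rfl
    refine ⟨insert q T, by rw [Finset.card_insert_of_notMem hqT, h1], ?_, ?_⟩
    · intro p hp
      rcases Finset.mem_insert.1 hp with rfl | hp
      · exact ⟨hq1, by omega⟩
      · exact h2 p hp
    · intro p hp r hr hpr
      rcases Finset.mem_insert.1 hp with hp' | hp'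
      · rcases Finset.mem_insert.1 hr with hr' | hr'
        · omega
        · have := hlt r hr'
          omega
      · rcases Finset.mem_insert.1 hr with hr' | hr'
        · rw [hr']
          exact hdvd p hp'
        · exact h3 p hp' r hr' hpr

/-- powers of products of many primes are admissible -/
theorem exists_admissible (k : ℕ) : ∃ T : Finset ℕ, T.card = k ∧ (∀ p ∈ T, p.Prime ∧ p ≠ 2) ∧
    ∀ e : ℕ, Admissible ((∏ p ∈ T, p) ^ e) := by
  obtain ⟨T, h1, h2, h3⟩ := chain k
  refine ⟨T, h1, h2, fun e => ?_⟩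
  have hmem : ∀ s : ℕ, s.Prime → s ∣ (∏ p ∈ T, p) ^ e → s ∈ T := by
    intro s hs h
    obtain ⟨p, hp, hsp⟩ := (Prime.dvd_finsetProd_iff hs.prime _).1 (hs.dvd_of_dvd_pow h)
    rwa [(Nat.prime_dvd_prime_iff_eq hs (h2 p hp).1).1 hsp]
  refine admissible_of_triples ?_ ?_
  · intro m hm h
    have h4 : 2 ∣ (∏ p ∈ T, p) ^ e :=
      (dvd_pow_self 2 (by omega)).trans ((dvd_mul_right _ _).trans h)
    exact (h2 2 (hmem 2 Nat.prime_two h4)).2 rfl
  · intro p q r hp hq hr hp2 hpq hqr h4 h5 h6
    have m1 := hmem p hp ((dvd_pow_self p two_ne_zero).trans h4)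
    have m2 := hmem q hq ((dvd_pow_self q two_ne_zero).trans h5)
    have m3 := hmem r hr ((dvd_pow_self r two_ne_zero).trans h6)
    exact ⟨h3 p m1 q m2 hpq, h3 p m1 r m3 (hpq.trans hqr)⟩

/-- (0) Numbers which satisfy the condition on Mersenne primes are admissible if they are divisible
by the squares of at most two odd primes, or if `q ≡ r ≡ 1` modulo `p` for any three odd primes
`p < q < r` whose squares divide the number; and for each `k` there are `k` odd primes such that all
powers of their product are admissible. Let `n ≥ 1` be admissible.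
(1) Let `G` be a group of exponent dividing `n` all of whose two-generator subgroups are finite, and
also soluble if `n` has more than two prime divisors. If `G` is nontrivial, then `G` has a
nontrivial normal subgroup whose exponent divides a prime power dividing `n`. If all prime powers
greater than `4` dividing `n` are in `𝓛`, then `G` is locally finite. (2) Suppose that the
two-generator free Burnside group `B_{2,n}` is soluble or that `n` has at most two prime divisors.
Then `n ∈ 𝓛` if and only if all prime powers greater than `4` dividing `n` are in `𝓛` and `B_{2,n}`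
is finite. -/
theorem result :
    ((∀ n : ℕ, (∀ m : ℕ, 2 ≤ m → ¬ 2 ^ m * (2 ^ m - 1) ^ 2 ∣ n) →
        ((∃ p q : ℕ, ∀ r : ℕ, r.Prime → r ≠ 2 → r ^ 2 ∣ n → r = p ∨ r = q) ∨
          ∀ p q r : ℕ, p.Prime → q.Prime → r.Prime → p ≠ 2 → p < q → q < r →
            p ^ 2 ∣ n → q ^ 2 ∣ n → r ^ 2 ∣ n → p ∣ q - 1 ∧ p ∣ r - 1) → Admissible n) ∧
      ∀ k : ℕ, ∃ T : Finset ℕ, T.card = k ∧ (∀ p ∈ T, p.Prime ∧ p ≠ 2) ∧
        ∀ e : ℕ, Admissible ((∏ p ∈ T, p) ^ e)) ∧
    ∀ n : ℕ, 1 ≤ n → Admissible n →
      (∀ (G : Type u) [Group G], (∀ x : G, x ^ n = 1) →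
        (∀ x y : G, Finite (Subgroup.closure {x, y})) →
        (n.primeFactors.card ≤ 2 ∨ ∀ x y : G, Group.IsSolvable (Subgroup.closure {x, y})) →
        (Nontrivial G → ∃ p k : ℕ, p.Prime ∧ p ^ k ∣ n ∧
          ∃ N : Subgroup G, N.Normal ∧ N ≠ ⊥ ∧ ∀ x ∈ N, x ^ p ^ k = 1) ∧
        (PrimePowersInL.{u} n → ∀ S : Set G, S.Finite → Finite (Subgroup.closure S))) ∧
      (n.primeFactors.card ≤ 2 ∨ Group.IsSolvable (B 2 n) →
        (InL.{u} n ↔ PrimePowersInL.{u} n ∧ Finite (B 2 n))) := by
  refine ⟨⟨fun n h1 h2 => ?_, exists_admissible⟩, fun n hn hA => ?_⟩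
  · refine admissible_of_triples h1 ?_
    rcases h2 with ⟨a, b, hab⟩ | h2
    · intro p q r hp hq hr hp2 hpq hqr h4 h5 h6
      exfalso
      have hp3 := hp.two_le
      have h7 := hab p hp hp2 h4
      have h8 := hab q hq (by omega) h5
      have h9 := hab r hr (by omega) h6
      omega
    · exact h2
  · have T : TrS n := Pool.Agent.V1110.Bs.trSX (by omega) ⟨hA.1, hA.2⟩
    refine ⟨fun G _ hG h2 hs => ⟨fun hnt => exists_normalS T G hG h2 hs hnt, fun hL S hS =>
      lf_trS_u T (locfin_qp hL) G hG h2 hs S hS⟩, fun hs => ⟨fun h => ⟨?_, b_finite_of_inL h 2⟩, ?_⟩⟩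
    · rintro p k - ⟨c, hc⟩ - G _ hG
      exact h G fun x => by rw [hc, pow_mul, hG, one_pow]
    · rintro ⟨h1, h2⟩
      exact (inL_iff x_LFD _).2 (locfin_trS T (locfin_qp h1) hs h2)

end Pool.Agent.Results.MP_544bd1_al.TwoGeneratorsManySquares
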