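import Mathlib
import Pool.Agent.V1110.BtE
import Pool.Agent.TH69.OdW

/-!
# Two generators and one prime: splitting a prime power off the exponent

Let `n = p ^ a * m` with a prime `p` not dividing `m`.  Assume that no power `q ^ r > 1` of a prime
divisor `q` of `m` equals `p ^ μ - 1` with `1 ≤ μ ≤ a`, and that `p` divides `q - 1` for each prime
`q` with `q ^ 2 ∣ m` and, if `n` is even, also for each Fermat prime `q` dividing `m`.  For odd `n`
this means that `p` divides `q - 1` for each prime `q` with `q ^ 2 ∣ m`.  For `p = 2` it means that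
no Mersenne prime less than `2 ^ a` divides `m`.

Let `G` be a group of exponent `n` whose two-generator subgroups are finite and soluble.  (They may
also be `p`-soluble only, if `p` divides `q - 1` for all primes `q` dividing `m`.)  Then `G` has a
normal series `1 = N 0 ≤ N 1 ≤ ... ≤ N (2 a + 1) = G` whose factors have exponents dividing
`m, p ^ a, m, p ^ (a - 1), m, ..., p, m`; if `p ^ a` and `m` are in `𝓛`, then `G` is locally finite.
So for `B_{2,n}` finite and soluble, `n ∈ 𝓛` if and only if `p ^ a ∈ 𝓛` and `m ∈ 𝓛`.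

Outline.  Let `R` be the largest normal subgroup of `G` of exponent dividing `m`; pass to `G / R`.
By the theorem of Hall and Higman the element `w = x ^ (p ^ (a - 1))` lies in `O_{p',p}(E)` for each
element `x` of order `p ^ a` and each finite soluble subgroup `E` containing `w`.  If `w` is not in
the largest normal subgroup of `G` of exponent dividing `p ^ a`, it acts irreducibly and nontrivially
on an elementary abelian `q`-subgroup `U`, `q ≠ p`; by the library `Pool.Agent.TH69` (part `Og`) the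
action is not given by scalars, so `p` does not divide `q - 1`; and `q ^ 2` divides `m` (for this the
theorem of Hall and Higman is applied to the prime `q`).  This is a contradiction, so that modulo
this subgroup the `p`-part of the exponent is at most `p ^ (a - 1)`.
-/

set_option autoImplicit false

namespace Pool.Agent.Results.MP_544bd1_al.TwoGeneratorsOnePrime

open Pool.Agent.H32BU Pool.Agent.W629 Pool.Agent.TH69 Pool.Agent.V1110.Bt

universe u

/-- `n ∈ 𝓛`: every group satisfying `x ^ n = 1` is locally finite. -/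
def InL (n : ℕ) : Prop := ∀ (G : Type u) [Group G], (∀ x : G, x ^ n = 1) →
  ∀ S : Set G, S.Finite → Finite (Subgroup.closure S)

/-- The free Burnside group `B_{m,n}`: the free group of rank `m` modulo the normal closure of all
`n`-th powers. -/
abbrev B (m n : ℕ) : Type :=
  FreeGroup (Fin m) ⧸ Subgroup.normalClosure (Set.range fun w : FreeGroup (Fin m) => w ^ n)

/-- The group `G` is `p`-soluble: it has a subnormal series `1 = H 0 ≤ H 1 ≤ ... ≤ H k = G` whose
factors have order `p` or order prime to `p`. -/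
def PSoluble (p : ℕ) (G : Type u) [Group G] : Prop :=
  ∃ (k : ℕ) (H : ℕ → Subgroup G), H 0 = ⊥ ∧ H k = ⊤ ∧ ∀ i < k, H i ≤ H (i + 1) ∧
    ((H i).subgroupOf (H (i + 1))).Normal ∧
    ((H i).relIndex (H (i + 1)) = p ∨ Nat.Coprime ((H i).relIndex (H (i + 1))) p)

/-- For each prime `q` dividing `m`: no power `q ^ r`, `r ≥ 1`, equals `p ^ μ - 1` with
`1 ≤ μ ≤ a`; and `q ≡ 1` modulo `p`, or else `q ^ 2` does not divide `m`, and `p ^ a * m` is odd or
`q` is not of the form `2 ^ r + 1` with `r ≥ 1`. -/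
def Good (p a m : ℕ) : Prop :=
  ∀ q : ℕ, q.Prime → q ∣ m → (∀ r μ : ℕ, 1 ≤ r → 1 ≤ μ → μ ≤ a → q ^ r ≠ p ^ μ - 1) ∧
    (p ∣ q - 1 ∨ ¬ q ^ 2 ∣ m ∧ (Odd (p ^ a * m) ∨ ∀ r : ℕ, 1 ≤ r → q ≠ 2 ^ r + 1))

/-- `G` is soluble; or all primes dividing `m` are `≡ 1` modulo `p`, and `G` is `p`-soluble. -/
def Sol (p m : ℕ) (G : Type u) [Group G] : Prop :=
  Group.IsSolvable G ∨ (∀ q : ℕ, q.Prime → q ∣ m → p ∣ q - 1) ∧ PSoluble p G

/-- `G` satisfies `x ^ n = 1` for `n = p ^ a * m`; its two-generator subgroups are finite; all of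
them are soluble, or all of them are `p`-soluble and all primes dividing `m` are `≡ 1` modulo
`p`. -/
def TwoGen (p a m : ℕ) (G : Type u) [Group G] : Prop :=
  (∀ x : G, x ^ (p ^ a * m) = 1) ∧ (∀ x y : G, Finite (Subgroup.closure {x, y})) ∧
  ((∀ x y : G, Group.IsSolvable (Subgroup.closure {x, y})) ∨
    (∀ q : ℕ, q.Prime → q ∣ m → p ∣ q - 1) ∧ ∀ x y : G, PSoluble p (Subgroup.closure {x, y}))

/-- `G` has a normal series `1 = N 0 ≤ N 1 ≤ ... ≤ N (2 a + 1) = G` such that the exponents of the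
factors divide `m, p ^ a, m, p ^ (a - 1), m, ..., p, m` (in this order). -/
def HasSeries (p a m : ℕ) (G : Type u) [Group G] : Prop :=
  ∃ N : ℕ → Subgroup G, N 0 = ⊥ ∧ N (2 * a + 1) = ⊤ ∧ (∀ i, (N i).Normal ∧ N i ≤ N (i + 1)) ∧
    (∀ i ≤ a, ∀ x ∈ N (2 * i + 1), x ^ m ∈ N (2 * i)) ∧
    ∀ i < a, ∀ x ∈ N (2 * i + 2), x ^ p ^ (a - i) ∈ N (2 * i + 1)

theorem key1 {p a m : ℕ} (hp : p.Prime) (hpm : ¬ p ∣ m) (hg : Good p a m) (α : ℕ) (hα : 1 ≤ α)
    (hαa : α ≤ a) : Key 2 True p α m := by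
  refine key_sol hp hpm hα
    (fun q hq hqm μ h2 h3 r hr => (hg q hq hqm).1 r μ hr h2 (h3.trans hαa)) fun q hq hqm => ?_
  rcases (hg q hq hqm).2 with h | ⟨h1, h | h⟩
  · exact Or.inl h
  · refine Or.inr ⟨h1, Or.inl fun h2 => ?_⟩
    have h2 : 2 ∣ p ^ a * m := h2.trans (Nat.mul_dvd_mul (pow_dvd_pow p hαa) dvd_rfl)
    obtain ⟨c, hc⟩ := h
    omega
  · exact Or.inr ⟨h1, Or.inr h⟩

theorem key2 {p a m : ℕ} (hp : p.Prime) (hpm : ¬ p ∣ m) (hg : Good p a m)
    (h1 : ∀ q : ℕ, q.Prime → q ∣ m → p ∣ q - 1) (α : ℕ) (hα : 1 ≤ α)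
    (hαa : α ≤ a) : Key 2 False p α m :=
  key_two hp hpm hα (fun q hq hqm μ h2 h3 r hr => (hg q hq hqm).1 r μ hr h2 (h3.trans hαa)) h1

theorem groups {p a m : ℕ} (hp : p.Prime) (hpm : ¬ p ∣ m) (hg : Good p a m) (G : Type u) [Group G]
    (h : TwoGen p a m G) : HasSeries p a m G ∧
      (InL.{u} (p ^ a) → InL.{u} m → ∀ S : Set G, S.Finite → Finite (Subgroup.closure S)) := by
  obtain ⟨hG, h1, h2 | ⟨h2, h3⟩⟩ := h
  · refine (main.{u} (d := 2) (σ := True) hp hpm (key1 hp hpm hg)).1 G ⟨hG, fun v => ?_⟩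
    rw [closure_two]
    have h5 := h2 (v 0) (v 1)
    exact ⟨h1 _ _, psepU_of_solvable _ h5 (exp_sub hG _), fun _ => h5⟩
  · refine (main.{u} (d := 2) (σ := False) hp hpm (key2 hp hpm hg h2)).1 G ⟨hG, fun v => ?_⟩
    rw [closure_two]
    have := h1 (v 0) (v 1)
    exact ⟨h1 _ _, PSol.psep hp hpm _ (exp_sub hG _) (h3 _ _), fun h => h.elim⟩

theorem good_of_odd {p a m : ℕ} (ha : 1 ≤ a) (hodd : Odd (p ^ a * m))
    (h : ∀ q : ℕ, q.Prime → q ^ 2 ∣ m → p ∣ q - 1) : Good p a m := by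
  intro q hq hqm
  refine ⟨fun r μ hr h1 h2 => odd_hex (n := p ^ a * m) (m := m) (a := a) ?_ (Dvd.intro_left _ rfl)
    ?_ q hq hqm μ h1 h2 r hr, ?_⟩
  · intro h2
    obtain ⟨c, hc⟩ := hodd
    omega
  · intro h2
    have h3 : 2 ∣ p ^ a * m := (h2.trans (dvd_pow_self p (by omega))).trans (dvd_mul_right _ _)
    obtain ⟨c, hc⟩ := hodd
    omega
  · by_cases h2 : q ^ 2 ∣ m
    · exact Or.inl (h q hq h2)
    · exact Or.inr ⟨h2, Or.inl hodd⟩

theorem good_of_even {a m : ℕ} (hpm : ¬ 2 ∣ m)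
    (hM : ∀ μ, 2 ≤ μ → μ ≤ a → (2 ^ μ - 1).Prime → ¬ 2 ^ μ - 1 ∣ m) : Good 2 a m := by
  intro q hq hqm
  refine ⟨fun r μ hr h1 h2 h3 => ?_, Or.inl ?_⟩
  · obtain ⟨h4, h5⟩ := Od.mersenne hq hr h3
    rw [h4] at hq hqm
    exact hM μ h5 h2 hq hqm
  · have : q ≠ 2 := by
      rintro rfl
      exact hpm hqm
    obtain ⟨c, hc⟩ := hq.odd_of_ne_two this
    exact ⟨c, by omega⟩

/-- Let `p` be a prime, `m ≥ 1` not divisible by `p`, and `n = p ^ a * m`. (0) `Good p a m` holds if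
`a ≥ 1`, `n` is odd and `p` divides `q - 1` for each prime `q` with `q ^ 2 ∣ m`; and also if `p = 2`
and no Mersenne prime `2 ^ μ - 1` with `μ ≤ a` divides `m`. Now let `Good p a m` hold. (1) Let `G`
be a group satisfying `x ^ n = 1` whose two-generator subgroups are finite, and soluble; or finite
and `p`-soluble, if all primes dividing `m` are `≡ 1` modulo `p`. Then `G` has a normal series of
length `2 a + 1` the exponents of whose factors divide `m, p ^ a, m, p ^ (a - 1), m, ..., p, m`; and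
`G` is locally finite if `p ^ a` and `m` are in `𝓛`. (2) Suppose that `B_{2,n}` is finite and
soluble (or only `p`-soluble, if all primes dividing `m` are `≡ 1` modulo `p`). Then every group
satisfying `x ^ n = 1` has such a series, and `n ∈ 𝓛` if and only if `p ^ a ∈ 𝓛` and `m ∈ 𝓛`. -/
theorem result (p a m : ℕ) (hp : p.Prime) (hpm : ¬ p ∣ m) :
    (((1 ≤ a ∧ Odd (p ^ a * m) ∧ ∀ q : ℕ, q.Prime → q ^ 2 ∣ m → p ∣ q - 1) ∨
        (p = 2 ∧ ∀ μ, 2 ≤ μ → μ ≤ a → (2 ^ μ - 1).Prime → ¬ 2 ^ μ - 1 ∣ m)) → Good p a m) ∧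
    (Good p a m →
      (∀ (G : Type u) [Group G], TwoGen p a m G → HasSeries p a m G ∧
        (InL.{u} (p ^ a) → InL.{u} m → ∀ S : Set G, S.Finite → Finite (Subgroup.closure S))) ∧
      (Finite (B 2 (p ^ a * m)) → Sol p m (B 2 (p ^ a * m)) →
        (∀ (G : Type u) [Group G], (∀ x : G, x ^ (p ^ a * m) = 1) → HasSeries p a m G) ∧
        (InL.{u} (p ^ a * m) ↔ InL.{u} (p ^ a) ∧ InL.{u} m))) := by
  refine ⟨?_, fun hg => ⟨fun G _ hG => groups hp hpm hg G hG, fun hf hs => ?_⟩⟩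
  · rintro (⟨ha, h1, h2⟩ | ⟨rfl, h⟩)
    · exact good_of_odd ha h1 h2
    · exact good_of_even hpm h
  · rcases hs with h1 | ⟨h1, h2⟩
    · exact (main.{u} (d := 2) (σ := True) hp hpm (key1 hp hpm hg)).2 hf
        (psepU_of_solvable _ h1 bu_exp) fun _ => h1
    · exact (main.{u} (d := 2) (σ := False) hp hpm (key2 hp hpm hg h1)).2 hf
        (PSol.psep hp hpm _ bu_exp h2) fun h => h.elim

end Pool.Agent.Results.MP_544bd1_al.TwoGeneratorsOnePrime
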